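import Pool.Agent.Lib.MP_1a91b9_ntT.S6.NFa
import Pool.Agent.Lib.MP_1a91b9_ntT.S2.Main
import Pool.Agent.Lib.MP_1a91b9_ntT.S3.Iface

/-!
# Stream S3L, file BsG: the value at `1` of the partial `L`-series of the class `1` modulo `f`

`f` is a nonzero integer of `K` such that the only unit `≡ 1 mod f` is `1`. With a natural number
`B > 1`, `B ≡ 1 mod f`, the function `δ = 1[≡ 1 mod f] (1 - B² 1[B ∣ ·])` is admissible for
`s2_main`; its `L`-series is `g(s) (1 - B^(3 - 2 s))` and its value at `1` is the finite sum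
`∑ δ(x) c⁻¹ E1(x / c) = (1 - B) E1(1/f) / f` (`c = B N(f)`), by the distribution relation.
-/

set_option autoImplicit false
set_option linter.unusedSectionVars false

namespace Pool.Agent.Lib.MP_1a91b9_ntT3.S3L

open NumberField Pool.Agent.Lib.MP_1a91b9_ntT

noncomputable section

/-- The element of the ring of integers attached to an index. -/
def ixO {c : ℕ} (x : Fin c × Fin c) : 𝓞 K :=
  ((x.1 : ℕ) : 𝓞 K) + ((x.2 : ℕ) : 𝓞 K) * Pool.Agent.Lib.MP_1a91b9_ntT.omO

theorem embK_ixO {c : ℕ} (x : Fin c × Fin c) :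
    embK (ixO x : K) = ((x.1 : ℕ) : ℂ) + ((x.2 : ℕ) : ℂ) * zt := by
  have h := kf_emb ((x.1 : ℕ) : ℤ) ((x.2 : ℕ) : ℤ)
  simp only [Int.cast_natCast] at h
  exact h

theorem zeroC (p q : ℤ) (h : (p : ℂ) + q * zt = 0) : p = 0 ∧ q = 0 := by
  have him := congrArg Complex.im h
  have hre := congrArg Complex.re h
  simp at him hre
  have hq : q = 0 := by
    rcases him with h | h
    · exact h
    · exact absurd h zt_ne
  subst hq
  simp at hre
  exact ⟨hre, rfl⟩

theorem zeroO (p q : ℤ) (h : (p : 𝓞 K) + (q : 𝓞 K) * Pool.Agent.Lib.MP_1a91b9_ntT.omO = 0) :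
    p = 0 ∧ q = 0 := by
  apply zeroC
  rw [← kf_emb, h]
  simp

theorem ixO_inj {c : ℕ} (x y : Fin c × Fin c) (h : (c : 𝓞 K) ∣ ixO x - ixO y) : x = y := by
  obtain ⟨e, he⟩ := h
  obtain ⟨e1, e2, rfl⟩ := kf_repr e
  have h1 : ((((x.1 : ℕ) : ℤ) - ((y.1 : ℕ) : ℤ) - c * e1 : ℤ) : 𝓞 K) +
      ((((x.2 : ℕ) : ℤ) - ((y.2 : ℕ) : ℤ) - c * e2 : ℤ) : 𝓞 K) *
        Pool.Agent.Lib.MP_1a91b9_ntT.omO = 0 := by
    unfold ixO at he
    push_cast
    linear_combination he
  obtain ⟨h2, h3⟩ := zeroO _ _ h1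
  have key : ∀ (u v : Fin c) (f : ℤ), ((u : ℕ) : ℤ) - ((v : ℕ) : ℤ) - c * f = 0 → u = v := by
    intro u v f h4
    have hu := u.2
    have hv := v.2
    apply Fin.ext
    have h5 : ((u : ℕ) : ℤ) - ((v : ℕ) : ℤ) = (c : ℤ) * f := by linarith
    have h6 : |((u : ℕ) : ℤ) - ((v : ℕ) : ℤ)| < (c : ℤ) := by
      rw [abs_lt]
      constructor <;> omega
    have h7 : ((u : ℕ) : ℤ) - ((v : ℕ) : ℤ) = 0 :=
      Int.eq_zero_of_abs_lt_dvd (Dvd.intro _ h5.symm) h6
    omega
  exact Prod.ext (key _ _ _ h2) (key _ _ _ h3)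

theorem ixO_surj {c : ℕ} (hc : 0 < c) (a : 𝓞 K) :
    ∃ x : Fin c × Fin c, (c : 𝓞 K) ∣ a - ixO x := by
  obtain ⟨p, q, rfl⟩ := kf_repr a
  have hpos : (0 : ℤ) < (c : ℤ) := by exact_mod_cast hc
  have key : ∀ u : ℤ, ∃ (v : Fin c) (f : ℤ), u = ((v : ℕ) : ℤ) + c * f := by
    intro u
    have h1 := Int.emod_nonneg u hpos.ne'
    have h2 := Int.emod_lt_of_pos u hpos
    refine ⟨⟨(u % (c : ℤ)).toNat, by omega⟩, u / (c : ℤ), ?_⟩
    have h3 := Int.emod_add_mul_ediv u (c : ℤ)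
    simp only [Int.toNat_of_nonneg h1]
    exact h3.symm
  obtain ⟨v1, f1, h1⟩ := key p
  obtain ⟨v2, f2, h2⟩ := key q
  refine ⟨(v1, v2), (f1 : 𝓞 K) + (f2 : 𝓞 K) * Pool.Agent.Lib.MP_1a91b9_ntT.omO, ?_⟩
  unfold ixO
  rw [h1, h2]
  push_cast
  ring

theorem embK_mulO (x y : 𝓞 K) : embK ((x * y : 𝓞 K) : K) = embK (x : K) * embK (y : K) := by
  have e : ((x * y : 𝓞 K) : K) = (x : K) * (y : K) := rfl
  rw [e, map_mul]

theorem embK_addO (x y : 𝓞 K) : embK ((x + y : 𝓞 K) : K) = embK (x : K) + embK (y : K) := by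
  have e : ((x + y : 𝓞 K) : K) = (x : K) + (y : K) := rfl
  rw [e, map_add]

theorem embK_oneO : embK ((1 : 𝓞 K) : K) = 1 := by
  have e : ((1 : 𝓞 K) : K) = 1 := rfl
  rw [e, map_one]

theorem embK_neO {x : 𝓞 K} (hx : x ≠ 0) : embK (x : K) ≠ 0 := by
  intro h
  apply hx
  apply RingOfIntegers.ext
  apply embK.toRingHom.injective
  show embK (x : K) = embK ((0 : 𝓞 K) : K)
  rw [h]
  exact (map_zero embK).symm

open Classical in
/-- The distribution relation on the class `1` modulo `f`, on the multiples of `B`. -/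
theorem sumB (f a : 𝓞 K) (B c : ℕ) (hc : 0 < c) (hfa : (c : 𝓞 K) = (B : 𝓞 K) * (f * a))
    (h1 : f ∣ (B : 𝓞 K) - 1) :
    ∑ x : Fin c × Fin c, (if f ∣ ixO x - 1 ∧ (B : 𝓞 K) ∣ ixO x then
      E1 (embK (ixO x : K) / (c : ℂ)) else 0) = embK (a : K) * E1 (1 / embK (f : K)) := by
  have hc0 : (c : 𝓞 K) ≠ 0 := by exact_mod_cast hc.ne'
  have hB0 : (B : 𝓞 K) ≠ 0 := fun h => hc0 (by rw [hfa, h, zero_mul])
  have hf0 : f ≠ 0 := fun h => hc0 (by rw [hfa, h, zero_mul, mul_zero])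
  have ha0 : a ≠ 0 := fun h => hc0 (by rw [hfa, h, mul_zero, mul_zero])
  have hcC : (c : ℂ) = (B : ℂ) * (embK (f : K) * embK (a : K)) := by
    rw [← kf_castN c, hfa, embK_mulO, embK_mulO, kf_castN]
  have hfC := embK_neO hf0
  have haC := embK_neO ha0
  have hBC : (B : ℂ) ≠ 0 := by
    rw [← kf_castN B]
    exact embK_neO hB0
  rw [← Finset.sum_filter]
  rw [Finset.sum_subtype (p := fun x : Fin c × Fin c => f ∣ ixO x - 1 ∧ (B : 𝓞 K) ∣ ixO x)
    (Finset.univ.filter _) (by intro x; simp) (fun x => E1 (embK (ixO x : K) / (c : ℂ)))]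
  obtain ⟨e, he⟩ := h1
  have hw : ∀ x : {x : Fin c × Fin c // f ∣ ixO x - 1 ∧ (B : 𝓞 K) ∣ ixO x},
      ∃ w : 𝓞 K, ixO x.1 = (B : 𝓞 K) * (1 + f * w) := by
    rintro ⟨x, ⟨z, hz⟩, y, hy⟩
    refine ⟨z - e * y, ?_⟩
    rw [hy] at hz
    show ixO x = _
    rw [hy]
    linear_combination (B : 𝓞 K) * hz - (B : 𝓞 K) * y * he
  choose ρ hρ using hw
  have hex : ∀ y : 𝓞 K, ∃! i, a ∣ y - ρ i := by
    intro y
    obtain ⟨x, d, hx⟩ := ixO_surj hc ((B : 𝓞 K) * (1 + f * y))
    have hxa : ixO x = (B : 𝓞 K) * (1 + f * (y - a * d)) := by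
      rw [hfa] at hx
      linear_combination -hx
    have hP : f ∣ ixO x - 1 ∧ (B : 𝓞 K) ∣ ixO x := by
      refine ⟨⟨e + (B : 𝓞 K) * (y - a * d), ?_⟩, ⟨_, hxa⟩⟩
      rw [hxa]
      linear_combination he
    refine ⟨⟨x, hP⟩, ⟨d, ?_⟩, ?_⟩
    · have h5 := hρ ⟨x, hP⟩
      have h6 : (B : 𝓞 K) * (1 + f * ρ ⟨x, hP⟩) = (B : 𝓞 K) * (1 + f * (y - a * d)) := by
        rw [← h5]
        exact hxa
      have h7 := mul_left_cancel₀ hB0 h6
      have h8 : f * ρ ⟨x, hP⟩ = f * (y - a * d) := add_left_cancel h7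
      have h9 := mul_left_cancel₀ hf0 h8
      linear_combination -h9
    · rintro ⟨x', hP'⟩ ⟨d', hd'⟩
      have h5 := hρ ⟨x', hP'⟩
      apply Subtype.ext
      apply ixO_inj
      refine ⟨d - d', ?_⟩
      have h5' : ixO x' = (B : 𝓞 K) * (1 + f * ρ ⟨x', hP'⟩) := h5
      show ixO x' - ixO x = _
      rw [h5', hxa, hfa]
      linear_combination -(B : 𝓞 K) * f * hd'
  have hd := E1_dist_O ha0 hex (1 / (embK (f : K) * embK (a : K)))
  have h2 : embK (a : K) * (1 / (embK (f : K) * embK (a : K))) = 1 / embK (f : K) := by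
    field_simp
  rw [h2] at hd
  rw [← hd]
  refine Finset.sum_congr rfl fun x _ => ?_
  congr 1
  rw [hρ x, embK_mulO, embK_addO, embK_mulO, embK_oneO, kf_castN, hcC]
  field_simp

open Classical in
theorem bsv (f a : 𝓞 K) (B c : ℕ) (hc : 0 < c) (hfa : (c : 𝓞 K) = (B : 𝓞 K) * (f * a))
    (h1 : f ∣ (B : 𝓞 K) - 1) :
    ∑ x : Fin c × Fin c, (if f ∣ ixO x - 1 then
      1 - (B : ℂ) ^ 2 * (if (B : 𝓞 K) ∣ ixO x then 1 else 0) else 0) *
        ((c : ℂ)⁻¹ * E1 (embK (ixO x : K) / (c : ℂ))) =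
      (1 - (B : ℂ)) * E1 (1 / embK (f : K)) / embK (f : K) := by
  have hc0 : (c : 𝓞 K) ≠ 0 := by exact_mod_cast hc.ne'
  have hB0 : (B : 𝓞 K) ≠ 0 := fun h => hc0 (by rw [hfa, h, zero_mul])
  have hf0 : f ≠ 0 := fun h => hc0 (by rw [hfa, h, zero_mul, mul_zero])
  have ha0 : a ≠ 0 := fun h => hc0 (by rw [hfa, h, mul_zero, mul_zero])
  have hcC : (c : ℂ) = (B : ℂ) * (embK (f : K) * embK (a : K)) := by
    rw [← kf_castN c, hfa, embK_mulO, embK_mulO, kf_castN]
  have hfC := embK_neO hf0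
  have haC := embK_neO ha0
  have hBC : (B : ℂ) ≠ 0 := by
    rw [← kf_castN B]
    exact embK_neO hB0
  have s1 := sumB f ((B : 𝓞 K) * a) 1 c hc (by rw [hfa]; push_cast; ring) (by simp)
  have s2 := sumB f a B c hc hfa h1
  rw [embK_mulO, kf_castN] at s1
  have e : ∀ x : Fin c × Fin c, (if f ∣ ixO x - 1 then
      1 - (B : ℂ) ^ 2 * (if (B : 𝓞 K) ∣ ixO x then 1 else 0) else 0) *
        ((c : ℂ)⁻¹ * E1 (embK (ixO x : K) / (c : ℂ))) =
      (c : ℂ)⁻¹ * ((if f ∣ ixO x - 1 ∧ ((1 : ℕ) : 𝓞 K) ∣ ixO x then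
        E1 (embK (ixO x : K) / (c : ℂ)) else 0) - (B : ℂ) ^ 2 *
          (if f ∣ ixO x - 1 ∧ (B : 𝓞 K) ∣ ixO x then E1 (embK (ixO x : K) / (c : ℂ)) else 0)) := by
    intro x
    by_cases c1 : f ∣ ixO x - 1
    · by_cases c2 : (B : 𝓞 K) ∣ ixO x
      · simp [c1, c2]
        ring
      · simp [c1, c2]
    · simp [c1]
  rw [Finset.sum_congr rfl fun x _ => e x, ← Finset.mul_sum, Finset.sum_sub_distrib,
    ← Finset.mul_sum, s1, s2, hcC]
  field_simp

universe u

section bs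

variable {F : Type u} [Field F] [NumberField F] [Algebra K F]

theorem g_finrank (h : Function.Bijective (algebraMap K F)) : Module.finrank K F = 1 := by
  have e : K ≃ₐ[K] F := AlgEquiv.ofBijective (Algebra.ofId K F) h
  rw [← LinearEquiv.finrank_eq e.toLinearEquiv, Module.finrank_self]

theorem g_trace (h : Function.Bijective (algebraMap K F)) (x : K) :
    Algebra.trace K F (algebraMap K F x) = x := by
  rw [Algebra.trace_algebraMap, g_finrank h, one_smul]

theorem g_coe (a : 𝓞 K) :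
    ((algebraMap (𝓞 K) (𝓞 F) a : 𝓞 F) : F) = algebraMap K F (a : K) := rfl

theorem g_inj (a a' : 𝓞 K) (h : algebraMap (𝓞 K) (𝓞 F) a = algebraMap (𝓞 K) (𝓞 F) a') :
    a = a' := by
  have h1 := congrArg (fun w : 𝓞 F => (w : F)) h
  simp only [g_coe] at h1
  exact RingOfIntegers.ext ((algebraMap K F).injective h1)

theorem g_surj (h : Function.Bijective (algebraMap K F)) (w : 𝓞 F) :
    ∃ a : 𝓞 K, algebraMap (𝓞 K) (𝓞 F) a = w := by
  obtain ⟨x, hx⟩ := h.2 (w : F)
  have hi : IsIntegral ℤ x := by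
    have h1 : IsIntegral ℤ (algebraMap K F x) := by
      rw [hx]
      exact w.2
    exact (isIntegral_algebraMap_iff (algebraMap K F).injective).1 h1
  refine ⟨⟨x, hi⟩, RingOfIntegers.ext ?_⟩
  exact hx

theorem g_dvd (h : Function.Bijective (algebraMap K F)) (a c : 𝓞 K) :
    algebraMap (𝓞 K) (𝓞 F) a ∣ algebraMap (𝓞 K) (𝓞 F) c ↔ a ∣ c := by
  constructor
  · rintro ⟨w, hw⟩
    obtain ⟨y, rfl⟩ := g_surj h w
    rw [← map_mul] at hw
    exact ⟨y, g_inj _ _ hw⟩
  · rintro ⟨y, rfl⟩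
    exact ⟨algebraMap (𝓞 K) (𝓞 F) y, by rw [map_mul]⟩

/-- The class of `1` modulo `f`. -/
def Cf (F : Type u) [Field F] [NumberField F] [Algebra K F] (f : 𝓞 K) : Set F :=
  {z | ∃ a : 𝓞 K, z = algebraMap K F (a : K) ∧ f ∣ a - 1}

theorem Cf_eq (h : Function.Bijective (algebraMap K F)) (f : 𝓞 K) :
    cls (⊤ : Ideal (𝓞 F)) (Ideal.span {algebraMap (𝓞 K) (𝓞 F) f}) 1 = Cf F f := by
  ext z
  constructor
  · rintro ⟨w, rfl, hw⟩
    rw [Ideal.mul_top, Ideal.mem_span_singleton] at hw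
    obtain ⟨a, rfl⟩ := g_surj h w
    refine ⟨a, rfl, ?_⟩
    rw [← g_dvd (F := F) h, map_sub, map_one]
    exact hw
  · rintro ⟨a, rfl, ha⟩
    refine ⟨algebraMap (𝓞 K) (𝓞 F) a, rfl, ?_⟩
    rw [Ideal.mul_top, Ideal.mem_span_singleton]
    have h1 := (g_dvd (F := F) h f (a - 1)).2 ha
    rwa [map_sub, map_one] at h1

theorem Cf_reps (h : Function.Bijective (algebraMap K F)) (f : 𝓞 K)
    (hf : ∀ u : (𝓞 K)ˣ, f ∣ (u : 𝓞 K) - 1 → u = 1) :
    IsRepsU (Ideal.span {algebraMap (𝓞 K) (𝓞 F) f}) (Cf F f) (Cf F f) := by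
  refine ⟨subset_rfl, fun z hz => ⟨1, ⟨?_, ?_⟩, ?_⟩⟩
  · simp
  · have e : (((1 : (𝓞 F)ˣ) : 𝓞 F) : F) = 1 := rfl
    rw [e, one_mul]
    exact hz
  · rintro v ⟨hv, -⟩
    rw [Ideal.mem_span_singleton] at hv
    obtain ⟨y, hy⟩ := g_surj h (v : 𝓞 F)
    obtain ⟨y', hy'⟩ := g_surj h ((v⁻¹ : (𝓞 F)ˣ) : 𝓞 F)
    have h1 : y * y' = 1 := by
      apply g_inj (F := F)
      rw [map_mul, hy, hy', map_one, Units.mul_inv]
    have h2 : f ∣ y - 1 := by
      rw [← g_dvd (F := F) h, map_sub, map_one, hy]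
      exact hv
    have h3 := hf (Units.mkOfMulEqOne y y' h1) h2
    have h4 : y = 1 := by
      have := congrArg (fun u : (𝓞 K)ˣ => (u : 𝓞 K)) h3
      exact this
    apply Units.ext
    rw [← hy, h4, map_one]
    rfl

open Classical in
/-- The smoothed indicator function of the class of `1`. -/
def dl (F : Type u) [Field F] [NumberField F] [Algebra K F] (f : 𝓞 K) (B : ℕ) (z : F) : ℂ :=
  if z ∈ Cf F f then 1 - (B : ℂ) ^ 2 *
    (if ∃ a : 𝓞 K, z = algebraMap K F (((B : 𝓞 K) * a : 𝓞 K) : K) then 1 else 0) else 0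

theorem mem_Cf (f a : 𝓞 K) : algebraMap K F (a : K) ∈ Cf F f ↔ f ∣ a - 1 := by
  constructor
  · rintro ⟨b, hb, hd⟩
    have e : a = b := RingOfIntegers.ext ((algebraMap K F).injective hb)
    rwa [e]
  · intro hd
    exact ⟨a, rfl, hd⟩

open Classical in
theorem dl_int (f : 𝓞 K) (B : ℕ) (a : 𝓞 K) : dl F f B (algebraMap K F (a : K)) =
    if f ∣ a - 1 then 1 - (B : ℂ) ^ 2 * (if (B : 𝓞 K) ∣ a then 1 else 0) else 0 := by
  have h2 : (∃ b : 𝓞 K, algebraMap K F (a : K) = algebraMap K F (((B : 𝓞 K) * b : 𝓞 K) : K)) ↔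
      (B : 𝓞 K) ∣ a := by
    constructor
    · rintro ⟨b, hb⟩
      exact ⟨b, RingOfIntegers.ext ((algebraMap K F).injective hb)⟩
    · rintro ⟨b, rfl⟩
      exact ⟨b, rfl⟩
  unfold dl
  exact if_congr (mem_Cf f a) (by rw [if_congr h2 rfl rfl]) rfl

theorem dl_supp (f : 𝓞 K) (B : ℕ) (z : F) (hz : dl F f B z ≠ 0) : z ∈ Cf F f := by
  unfold dl at hz
  by_contra hc
  rw [if_neg hc] at hz
  exact hz rfl

/-- Periodicity. -/
theorem dl_add (f : 𝓞 K) (B : ℕ) (d : 𝓞 K) (hd : f ∣ d) (hd' : (B : 𝓞 K) ∣ d) (z : F) :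
    dl F f B (z + algebraMap K F (d : K)) = dl F f B z := by
  classical
  by_cases hz : ∃ a' : 𝓞 K, z = algebraMap K F (a' : K)
  · obtain ⟨a', rfl⟩ := hz
    have e : algebraMap K F (a' : K) + algebraMap K F (d : K) =
        algebraMap K F ((a' + d : 𝓞 K) : K) := by
      rw [← map_add]
      rfl
    rw [e, dl_int, dl_int]
    have c1 : f ∣ a' + d - 1 ↔ f ∣ a' - 1 := by
      have e1 : a' + d - 1 = (a' - 1) + d := by ring
      rw [e1]
      exact dvd_add_left hd
    have c2 : (B : 𝓞 K) ∣ a' + d ↔ (B : 𝓞 K) ∣ a' := dvd_add_left hd'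
    exact if_congr c1 (by rw [if_congr c2 rfl rfl]) rfl
  · have hz' : ¬ ∃ a' : 𝓞 K, z + algebraMap K F (d : K) = algebraMap K F (a' : K) := by
      rintro ⟨a', ha'⟩
      refine hz ⟨a' - d, ?_⟩
      have : ((a' - d : 𝓞 K) : K) = (a' : K) - (d : K) := rfl
      rw [this, map_sub, ← ha']
      ring
    rw [show dl F f B z = 0 from by
        by_contra hc
        obtain ⟨a, ha, -⟩ := dl_supp f B z hc
        exact hz ⟨a, ha⟩]
    by_contra hc
    obtain ⟨a, ha, -⟩ := dl_supp f B _ hc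
    exact hz' ⟨a, ha⟩

theorem dl_adm (h : Function.Bijective (algebraMap K F)) (f : 𝓞 K) (hfu : ¬ f ∣ 1) (B : ℕ)
    (hB : 0 < B) (h1 : f ∣ (B : 𝓞 K) - 1) : Adm2 (dl F f B) ({1} : Set F) where
  bdd := by
    refine ⟨1 + (B : ℝ) ^ 2, fun z => ?_⟩
    unfold dl
    have hB2 : (0 : ℝ) ≤ (B : ℝ) ^ 2 := by positivity
    split_ifs
    · rw [mul_one]
      refine (norm_sub_le _ _).trans ?_
      rw [norm_one, norm_pow, Complex.norm_natCast]
    · rw [mul_zero, sub_zero, norm_one]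
      linarith
    · rw [norm_zero]
      linarith
  lat := by
    refine ⟨1, one_pos, fun z hz => ?_⟩
    obtain ⟨a, rfl, -⟩ := dl_supp f B z hz
    rw [Nat.cast_one, one_mul, ← g_coe]
    exact RingOfIntegers.isIntegral_coe _
  zero := by
    classical
    have e : (0 : F) = algebraMap K F ((0 : 𝓞 K) : K) := by
      have : ((0 : 𝓞 K) : K) = 0 := rfl
      rw [this, map_zero]
    rw [e, dl_int, if_neg]
    intro hd
    rw [zero_sub, dvd_neg] at hd
    exact hfu hd
  ne := by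
    intro v hv
    rw [Set.mem_singleton_iff] at hv
    subst hv
    refine ⟨one_ne_zero, fun z hz h0 => ?_⟩
    obtain ⟨a, rfl, ha⟩ := dl_supp f B z hz
    rw [one_mul, g_trace h] at h0
    have : a = 0 := RingOfIntegers.ext h0
    rw [this, zero_sub, dvd_neg] at ha
    exact hfu ha
  mean := by
    classical
    intro S hS α hα hSα
    have hS' : ∀ v ∈ S, False := by
      intro v hv
      have h1 := hS hv
      rw [Set.mem_singleton_iff] at h1
      have h2 := hSα v hv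
      rw [h1, one_mul] at h2
      obtain ⟨x, rfl⟩ := h.2 α
      rw [g_trace h] at h2
      rw [h2, map_zero] at hα
      exact hα rfl
    have e0 := finProdFinEquiv (m := B) (n := B)
    have hfin : ∃ (a : Fin (B * B) → F), ∀ z, ∑ j, dl F f B (z + a j) =
        ∑ x : Fin B × Fin B, dl F f B (z + algebraMap K F ((f * ixO x : 𝓞 K) : K)) := by
      refine ⟨fun j => algebraMap K F ((f * ixO ((finProdFinEquiv (m := B) (n := B)).symm j) :
        𝓞 K) : K), fun z => ?_⟩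
      exact Fintype.sum_equiv (finProdFinEquiv (m := B) (n := B)).symm _ _ fun j => rfl
    obtain ⟨a, ha⟩ := hfin
    refine ⟨B * B, a, Nat.mul_pos hB hB, fun j v hv => (hS' v hv).elim, fun z => ?_⟩
    rw [ha z]
    by_cases hz : z ∈ Cf F f
    · obtain ⟨y, rfl, hy⟩ := hz
      obtain ⟨e, he⟩ := h1
      -- the unique index `x` with `B ∣ y + f x`
      have hex : ∃ x : Fin B × Fin B, ∀ x', (B : 𝓞 K) ∣ y + f * ixO x' ↔ x' = x := by
        obtain ⟨x, d, hx⟩ := ixO_surj hB (e * y)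
        refine ⟨x, fun x' => ⟨fun hd => ?_, fun hd => ?_⟩⟩
        · obtain ⟨t, ht⟩ := hd
          apply ixO_inj
          refine ⟨ixO x' - e * t + d, ?_⟩
          linear_combination -e * ht - ixO x' * he + hx
        · subst hd
          refine ⟨y - f * d, ?_⟩
          linear_combination -f * hx - y * he
      obtain ⟨x, hx⟩ := hex
      have hval : ∀ x' : Fin B × Fin B,
          dl F f B (algebraMap K F (y : K) + algebraMap K F ((f * ixO x' : 𝓞 K) : K)) =
            1 - (B : ℂ) ^ 2 * (if x' = x then 1 else 0) := by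
        intro x'
        have e1 : algebraMap K F (y : K) + algebraMap K F ((f * ixO x' : 𝓞 K) : K) =
            algebraMap K F ((y + f * ixO x' : 𝓞 K) : K) := by
          rw [← map_add]
          rfl
        rw [e1, dl_int, if_pos, if_congr (hx x') rfl rfl]
        have e2 : y + f * ixO x' - 1 = (y - 1) + f * ixO x' := by ring
        rw [e2]
        exact dvd_add hy (dvd_mul_right _ _)
      rw [Finset.sum_congr rfl fun x' _ => hval x', Finset.sum_sub_distrib, ← Finset.mul_sum,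
        Finset.sum_ite_eq' Finset.univ x, if_pos (Finset.mem_univ _)]
      simp
      ring
    · refine Finset.sum_eq_zero fun x _ => ?_
      by_contra hc
      obtain ⟨y, hy, hy1⟩ := dl_supp f B _ hc
      apply hz
      refine ⟨y - f * ixO x, ?_, ?_⟩
      · have : ((y - f * ixO x : 𝓞 K) : K) = (y : K) - ((f * ixO x : 𝓞 K) : K) := rfl
        rw [this, map_sub, ← hy]
        ring
      · have e2 : y - f * ixO x - 1 = (y - 1) - f * ixO x := by ring
        rw [e2]
        exact dvd_sub hy1 (dvd_mul_right _ _)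

/-- The smoothing factor. -/
def fac (B : ℕ) (s : ℂ) : ℂ := 1 - (B : ℂ) ^ 2 * ((B : ℂ) * (B : ℂ) ^ (-2 * s))

theorem term_mul (h : Function.Bijective (algebraMap K F)) {B : ℕ} (s : ℂ) (z : F) :
    term s ((B : F) * z) = ((B : ℂ) * (B : ℂ) ^ (-2 * s)) * term s z := by
  have h1 : NF ((B : F) * z) = (B : ℂ) * NF z := by
    rw [nf_mul]
    congr 1
    have e : (B : F) = algebraMap K F (B : K) := (map_natCast _ _).symm
    rw [NF, e, Algebra.norm_algebraMap, g_finrank h, pow_one, map_natCast]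
  rw [term, term, h1, map_mul, norm_mul, Complex.norm_natCast, Complex.ofReal_mul,
    Complex.mul_cpow_ofReal_nonneg (by positivity) (norm_nonneg _)]
  rw [Complex.conj_natCast]
  push_cast
  ring

open Classical in
theorem dl_hasSum (h : Function.Bijective (algebraMap K F)) (f : 𝓞 K) (B : ℕ)
    (hB : 0 < B) (h1 : f ∣ (B : 𝓞 K) - 1) (s g : ℂ)
    (hs : HasSum (fun z : Cf F f => term s (z : F)) g) :
    HasSum (fun z : (Function.support (dl F f B)) => dl F f B z *
      (starRingEnd ℂ) (NF (z : F)) * (‖NF (z : F)‖ : ℂ) ^ (-2 * s)) (g * fac B s) := by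
  have hB0 : (B : F) ≠ 0 := by exact_mod_cast hB.ne'
  have a1 : HasSum ((Cf F f).indicator (term s)) g := hasSum_subtype_iff_indicator.1 hs
  let S : Set F := {z | ∃ w ∈ Cf F f, z = (B : F) * w}
  have a2 : HasSum (S.indicator (term s)) (((B : ℂ) * (B : ℂ) ^ (-2 * s)) * g) := by
    rw [← (Equiv.mulLeft₀ (B : F) hB0).hasSum_iff]
    refine (a1.mul_left ((B : ℂ) * (B : ℂ) ^ (-2 * s))).congr_fun ?_ |> fun h => h
    intro z
    show S.indicator (term s) ((B : F) * z) = _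
    by_cases hz : z ∈ Cf F f
    · have hS : (B : F) * z ∈ S := ⟨z, hz, rfl⟩
      rw [Set.indicator_of_mem hz, Set.indicator_of_mem hS, term_mul h]
    · rw [Set.indicator_of_notMem hz, Set.indicator_of_notMem, mul_zero]
      rintro ⟨w, hw, he⟩
      exact hz (by rwa [mul_left_cancel₀ hB0 he])
  have a3 := a1.sub (a2.mul_left ((B : ℂ) ^ 2))
  have e3 : g - (B : ℂ) ^ 2 * (((B : ℂ) * (B : ℂ) ^ (-2 * s)) * g) = g * fac B s := by
    rw [fac]
    ring
  rw [e3] at a3
  have a4 : HasSum (fun z : F => dl F f B z *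
      (starRingEnd ℂ) (NF (z : F)) * (‖NF (z : F)‖ : ℂ) ^ (-2 * s)) (g * fac B s) := by
    refine a3.congr_fun fun z => ?_
    rw [mul_assoc]
    change dl F f B z * term s z = _
    unfold dl
    obtain ⟨e, he⟩ := h1
    by_cases hz : z ∈ Cf F f
    · rw [if_pos hz, Set.indicator_of_mem hz]
      by_cases hz2 : ∃ a : 𝓞 K, z = algebraMap K F (((B : 𝓞 K) * a : 𝓞 K) : K)
      · have hS : z ∈ S := by
          obtain ⟨a, ha⟩ := hz2
          obtain ⟨b, hb, d, hd⟩ := hz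
          have e1 : b = (B : 𝓞 K) * a := by
            apply RingOfIntegers.ext
            apply (algebraMap K F).injective
            rw [← hb, ha]
          refine ⟨algebraMap K F (a : K), ⟨a, rfl, ⟨d - e * a, ?_⟩⟩, ?_⟩
          · rw [e1] at hd
            linear_combination hd - a * he
          · rw [ha]
            have e2 : (((B : 𝓞 K) * a : 𝓞 K) : K) = (B : K) * (a : K) := by
              have : (((B : 𝓞 K) * a : 𝓞 K) : K) = ((B : 𝓞 K) : K) * (a : K) := rfl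
              rw [this]
              congr 1
            rw [e2, map_mul, map_natCast]
        rw [if_pos hz2, Set.indicator_of_mem hS]
        ring
      · have hS : z ∉ S := by
          rintro ⟨w, ⟨a, rfl, -⟩, rfl⟩
          refine hz2 ⟨a, ?_⟩
          have e2 : (((B : 𝓞 K) * a : 𝓞 K) : K) = (B : K) * (a : K) := by
            have : (((B : 𝓞 K) * a : 𝓞 K) : K) = ((B : 𝓞 K) : K) * (a : K) := rfl
            rw [this]
            congr 1
          rw [e2, map_mul, map_natCast]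
        rw [if_neg hz2, Set.indicator_of_notMem hS]
        ring
    · have hS : z ∉ S := by
        rintro ⟨w, ⟨a, rfl, d, hd⟩, rfl⟩
        refine hz ⟨(B : 𝓞 K) * a, ?_, ⟨e * a + d, ?_⟩⟩
        · have e2 : (((B : 𝓞 K) * a : 𝓞 K) : K) = (B : K) * (a : K) := by
            have : (((B : 𝓞 K) * a : 𝓞 K) : K) = ((B : 𝓞 K) : K) * (a : K) := rfl
            rw [this]
            congr 1
          rw [e2, map_mul, map_natCast]
        · linear_combination a * he + hd
      rw [if_neg hz, Set.indicator_of_notMem hz, Set.indicator_of_notMem hS]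
      ring
  refine (hasSum_subtype_iff_of_support_subset ?_).2 a4
  intro z hz h0
  apply hz
  show dl F f B z * _ * _ = 0
  rw [h0]
  ring

end bs

/-- Reindexing of a sum over functions from `Fin 1`. -/
theorem g_reindex (G : ℕ → ℕ → ℂ) (N N' : ℕ) (hN : N = N') :
    ∑ x : Fin (0 + 1) → Fin N × Fin N, G (x 0).1 (x 0).2 =
      ∑ x : Fin N' × Fin N', G x.1 x.2 := by
  subst hN
  exact Fintype.sum_equiv (Equiv.funUnique (Fin 1) (Fin N × Fin N)) _ _ fun x => rfl

end

end Pool.Agent.Lib.MP_1a91b9_ntT3.S3L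

namespace Pool.Agent.Lib.MP_1a91b9_ntT3

open NumberField Pool.Agent.Lib.MP_1a91b9_ntT S3L

universe u

/-- The value at `1` of the partial `L`-series of the class of `1` modulo `f` over the base
field. -/
theorem bs_gen (f : 𝓞 K) (hf0 : f ≠ 0) (hf : ∀ u : (𝓞 K)ˣ, f ∣ (u : 𝓞 K) - 1 → u = 1)
    {F : Type u} [Field F] [NumberField F] [Algebra K F]
    (h : Function.Bijective (algebraMap K F)) (g : ℂ → ℂ) (hg : Differentiable ℂ g)
    (hgs : ∀ X : Set F, IsRepsU (Ideal.span {algebraMap (𝓞 K) (𝓞 F) f})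
      (cls ⊤ (Ideal.span {algebraMap (𝓞 K) (𝓞 F) f}) 1) X →
      ∀ s : ℂ, 2 < s.re → HasSum (fun z : X => term s (z : F)) (g s)) :
    g 1 = E1 (1 / embK (f : K)) / embK (f : K) := by
  classical
  -- `f` is not a unit
  have hfu : ¬ f ∣ 1 := by
    intro hd
    have h1 : (-1 : (𝓞 K)ˣ) = 1 := hf (-1) (by
      have e : (((-1 : (𝓞 K)ˣ)) : 𝓞 K) - 1 = 1 * (-2) := by
        rw [Units.val_neg, Units.val_one]
        ring
      rw [e]
      exact Dvd.dvd.mul_right hd _)
    have h2 := congrArg (fun u : (𝓞 K)ˣ => (u : 𝓞 K)) h1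
    simp only [Units.val_neg, Units.val_one] at h2
    have h3 : (2 : 𝓞 K) = 0 := by linear_combination -h2
    exact two_ne_zero h3
  -- the norm of `f`
  obtain ⟨N, hN, a, ha⟩ := kf_normInt f
  have hN0 : 0 < N := by
    rcases Nat.eq_zero_or_pos N with h0 | h0
    · rw [h0, Nat.cast_zero] at hN
      exact absurd hN.symm (pow_ne_zero 2 (norm_ne_zero_iff.2 (embK_neO hf0)))
    · exact h0
  obtain ⟨B, hB⟩ : ∃ B : ℕ, B = N + 1 := ⟨_, rfl⟩
  have hB0 : 0 < B := by omega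
  have hB1 : B ≠ 1 := by omega
  have h1 : f ∣ (B : 𝓞 K) - 1 := by
    refine ⟨a, ?_⟩
    rw [hB, ← ha]
    push_cast
    ring
  have hc : 0 < B * N := Nat.mul_pos hB0 hN0
  have hfa : ((B * N : ℕ) : 𝓞 K) = (B : 𝓞 K) * (f * a) := by
    rw [← ha]
    push_cast
    ring
  have hfin := g_finrank h
  obtain ⟨σ, hσ⟩ : ∃ σ : Fin (0 + 1) → (F →ₐ[K] ℂ), Function.Bijective σ := by
    have := nf_exists (F := F)
    rw [hfin] at this
    exact this
  have hA := dl_adm (F := F) h f hfu B hB0 h1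
  obtain ⟨I, -, -, hframe, hunits⟩ := s2_main σ hσ (dl F f B) ({1} : Set F)
    (Set.finite_singleton _) hA
  have hdet : (regM σ (fun i : Fin 0 => i.elim0)).det = 1 := by
    rw [Matrix.det_fin_one]
    rfl
  obtain ⟨g₁, hg₁, hg₁s, hval⟩ := hunits (fun i : Fin 0 => i.elim0) (fun i => i.elim0)
    (fun i => i.elim0) (fun i => i.elim0) (by rw [hdet]; exact one_ne_zero)
  have hI : g₁ 1 = I (fun _ => 1) := by
    rw [hval 1 one_ne_zero (fun T => by
      rw [Finset.eq_empty_of_isEmpty T]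
      simp), hdet]
    have hp : ∀ s : Equiv.Perm (Fin 0), path (fun i : Fin 0 => (i.elim0 : F)) s 1 =
        fun _ => 1 := by
      intro s
      funext j
      simp [path]
    simp [hp]
  have hIv : I (fun _ => 1) = (1 - (B : ℂ)) * E1 (1 / embK (f : K)) / embK (f : K) := by
    have : Subsingleton (Fin (0 + 1)) := inferInstanceAs (Subsingleton (Fin 1))
    have hli : LinearIndependent K (fun _ : Fin (0 + 1) => (1 : F)) :=
      LinearIndependent.of_subsingleton 0 one_ne_zero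
    have hfr := hframe (fun _ => 1) (fun i => Set.mem_singleton _) hli 1 (B * N) one_pos hc
      (fun i z hz => by
        obtain ⟨y, rfl, -⟩ := dl_supp f B z hz
        exact ⟨y, by rw [one_mul, g_trace h, Nat.cast_one, one_mul]⟩)
      (fun μ hμ z => by
        obtain ⟨y, hy⟩ := hμ 0
        obtain ⟨x, rfl⟩ := h.2 μ
        rw [one_mul, g_trace h] at hy
        have e : x = ((((B * N : ℕ) : 𝓞 K) * y : 𝓞 K) : K) := by
          rw [hy]
          rfl
        rw [e]
        refine dl_add f B _ ?_ ?_ z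
        · rw [hfa]
          exact ⟨(B : 𝓞 K) * a * y, by ring⟩
        · rw [hfa]
          exact ⟨f * a * y, by ring⟩)
      (fun b => algebraMap K F (b 0))
      (fun b i => by
        rw [one_mul, g_trace h]
        congr 1
        exact Subsingleton.elim _ _)
    have hdet1 : (Matrix.of fun i j : Fin (0 + 1) => σ j ((fun _ : Fin (0 + 1) => (1 : F)) i)).det =
        1 := by
      rw [Matrix.det_fin_one]
      simp
    rw [hfr, hdet1, one_mul, ← bsv f a B (B * N) hc hfa h1]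
    refine Eq.trans ?_ (g_reindex (fun p q =>
      dl F f B (algebraMap K F (((p : K) + (q : K) * om) / ((1 : ℕ) : K))) *
        (((B * N : ℕ) : ℂ)⁻¹ * E1 (((p : ℂ) + (q : ℂ) * zt) / ((1 : ℕ) : ℂ) /
          ((B * N : ℕ) : ℂ)))) (B * N * 1) (B * N) (mul_one _)) |>.trans ?_
    · refine Finset.sum_congr rfl fun x _ => ?_
      congr 1
      rw [Fin.prod_univ_one]
      rfl
    · refine Finset.sum_congr rfl fun x _ => ?_
      have e : (((x.1 : ℕ) : K) + ((x.2 : ℕ) : K) * om) / ((1 : ℕ) : K) =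
          ((ixO x : 𝓞 K) : K) := by
        rw [Nat.cast_one, div_one]
        rfl
      simp only [e]
      rw [dl_int, Nat.cast_one, div_one, embK_ixO]
  have hBC : (B : ℂ) ≠ 0 := by exact_mod_cast hB0.ne'
  have hgg : g₁ = fun s => g s * fac B s := by
    have hfd : Differentiable ℂ (fac B) := by
      unfold fac
      have h5 : Differentiable ℂ (fun s : ℂ => (B : ℂ) ^ (-2 * s)) := by
        intro s
        exact DifferentiableAt.const_cpow (by fun_prop) (Or.inl hBC)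
      fun_prop
    refine AnalyticOnNhd.eq_of_eventuallyEq (𝕜 := ℂ) (z₀ := 3)
      (fun z _ => hg₁.analyticAt z) (fun z _ => (hg.mul hfd).analyticAt z) ?_
    have hopen : IsOpen {s : ℂ | 2 < s.re} := isOpen_lt continuous_const Complex.continuous_re
    filter_upwards [hopen.mem_nhds (show (3 : ℂ) ∈ {s : ℂ | 2 < s.re} by norm_num)] with s hs
    have hX := Cf_reps (F := F) h f hf
    have h2 := hgs (Cf F f) (by rw [Cf_eq h]; exact hX) s hs
    have h3 := dl_hasSum h f B hB0 h1 s (g s) h2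
    have hR : IsReps (fun i : Fin 0 => (i.elim0 : F)) (Function.support (dl F f B))
        (Function.support (dl F f B)) := by
      refine ⟨subset_rfl, fun z hz => ⟨fun i => i.elim0, ?_, ?_⟩⟩
      · show (∏ i : Fin 0, _) * z ∈ _
        rw [Finset.univ_eq_empty, Finset.prod_empty, one_mul]
        exact hz
      · intro k _
        exact Subsingleton.elim _ _
    exact (hg₁s _ hR s hs).unique h3
  have hfac : fac B 1 = 1 - (B : ℂ) := by
    have e : (-2 * 1 : ℂ) = ((-2 : ℤ) : ℂ) := by norm_num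
    rw [fac, e, Complex.cpow_intCast]
    field_simp
  have hne : 1 - (B : ℂ) ≠ 0 := by
    intro h0
    apply hB1
    have : (B : ℂ) = 1 := (sub_eq_zero.1 h0).symm
    exact_mod_cast this
  have hfinal : g 1 * (1 - (B : ℂ)) =
      (1 - (B : ℂ)) * E1 (1 / embK (f : K)) / embK (f : K) := by
    rw [← hIv, ← hI, hgg, ← hfac]
  apply mul_right_cancel₀ hne
  rw [hfinal]
  ring

end Pool.Agent.Lib.MP_1a91b9_ntT3
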