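import Pool.Agent.Lib.MP_1a91b9_ntT.D3.Tors

/-!
# Stream S3L, file Lam: multiplication by `√-3` and the places above `3`

`E : Y² = 4 X³ + 1` with complex multiplication by `ℤ[zt]`, `lam = 1 + 2 zt`, `lam² = -3`.
`3 X(z)² X(lam z) = -(X(z)³ + 1)`; with `4 r³ = -1` this is
`3 X(z)² (X(lam z) - r) = -(X(z) - r) (X(z) + 2 r)²`. So if `|X(z) - r| > |lam|` then
`|X(lam z) - r| > |X(z) - r|`, which is impossible at a torsion point of order prime to `3`.
-/

set_option autoImplicit false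

namespace Pool.Agent.Lib.MP_1a91b9_ntT3.S3L

open Complex Pool.Agent.Lib.MP_1a91b9_ntT Pool.Agent.Lib.MP_1a91b9_ntT.S3
  Pool.Agent.Lib.MP_1a91b9_ntT.Ell

noncomputable section

theorem X_zt (z : ℂ) : X (zt * z) = zt * X z := by rw [X, X, P_zt, mul_div_assoc]

theorem Y_zt (z : ℂ) : Y (zt * z) = Y z := by rw [Y, Y, Q_zt]

/-- The square root of `-3`. -/
def lam : ℂ := 1 + 2 * zt

theorem lam_sq : lam ^ 2 = -3 := by
  rw [lam]
  linear_combination 4 * zt_quad

theorem lam_mem : lam ∈ PP.lattice := mem_PP.2 ⟨1, 2, by simp [lam]⟩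

/-- Multiplication by `√-3` on the curve. -/
theorem X_lam {z : ℂ} (hz : z ∉ PP.lattice) (hl : lam * z ∉ PP.lattice) :
    3 * X z ^ 2 * X (lam * z) = -(X z ^ 3 + 1) := by
  by_cases h2 : 2 * z ∈ PP.lattice
  · have e : lam * z = z + zt * (2 * z) := by rw [lam]; ring
    have hY : Y z = 0 := by rw [Y, Q_half h2, zero_div]
    have hc := Y_sq hz
    rw [hY] at hc
    rw [e, X_add (zt_mul_mem.2 h2)]
    linear_combination -hc
  · have hu2 : 2 * (zt * z) ∉ PP.lattice := fun h => h2 (by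
      have e : 2 * (zt * z) = zt * (2 * z) := by ring
      rw [e] at h
      exact zt_mul_mem.1 h)
    have hv2 : 2 * -(zt * (zt * z)) ∉ PP.lattice := fun h => h2 (by
      have e : 2 * -(zt * (zt * z)) = -(zt * (zt * (2 * z))) := by ring
      rw [e] at h
      have h3 := neg_mem h
      rw [neg_neg] at h3
      exact zt_mul_mem.1 (zt_mul_mem.1 h3))
    have h1 : zt * z - -(zt * (zt * z)) ∉ PP.lattice := fun h => hz (by
      have e : zt * z - -(zt * (zt * z)) = -z := by linear_combination z * zt_quad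
      rw [e] at h
      have h3 := neg_mem h
      rwa [neg_neg] at h3)
    have e2 : zt * z + -(zt * (zt * z)) = lam * z := by
      rw [lam]
      linear_combination -z * zt_quad
    have h3 : zt * z + -(zt * (zt * z)) ∉ PP.lattice := by rwa [e2]
    have hch := chord hu2 hv2 h1 h3
    have hsq := sl_sq (notMem_of_two_mul hu2) (notMem_of_two_mul hv2) h3
    rw [e2] at hsq
    rw [Y_neg, Y_zt, Y_zt, Y_zt, X_neg, X_zt, X_zt, X_zt] at hch
    rw [X_neg, X_zt, X_zt, X_zt] at hsq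
    have hc := Y_sq hz
    obtain ⟨s, hs⟩ : ∃ s, s = sl (zt * z) (-(zt * (zt * z))) := ⟨_, rfl⟩
    rw [← hs] at hch hsq
    have hY : Y z = s * X z * lam := by
      rw [lam]
      linear_combination hch / 2 - s * X z * zt_quad
    rw [hY] at hc
    have e5 : X (lam * z) = s ^ 2 + X z := by
      linear_combination hsq - X z * zt_quad
    rw [e5]
    have hl2 := lam_sq
    linear_combination -hc + s ^ 2 * X z ^ 2 * hl2

/-- `z` is a torsion point of order prime to `3`. -/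
def Tor (n : ℕ) (z : ℂ) : Prop := z ∉ PP.lattice ∧ (n : ℂ) * z ∈ PP.lattice

theorem mem_of_cop {n : ℕ} (hn : n.Coprime 3) {z : ℂ} (h1 : (n : ℂ) * z ∈ PP.lattice)
    (h3 : 3 * z ∈ PP.lattice) : z ∈ PP.lattice := by
  have hb := Nat.gcd_eq_gcd_ab n 3
  rw [hn] at hb
  have e : z = ((n.gcdA 3 : ℤ) : ℂ) * ((n : ℂ) * z) + ((n.gcdB 3 : ℤ) : ℂ) * (3 * z) := by
    have e1 : (1 : ℂ) = (n : ℂ) * ((n.gcdA 3 : ℤ) : ℂ) + 3 * ((n.gcdB 3 : ℤ) : ℂ) := by
      exact_mod_cast hb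
    linear_combination z * e1
  rw [e]
  exact add_mem (mul_int_mem h1 _) (mul_int_mem h3 _)

theorem Tor.lam {n : ℕ} (hn : n.Coprime 3) {z : ℂ} (h : Tor n z) : Tor n (lam * z) := by
  refine ⟨fun hl => h.1 (mem_of_cop hn h.2 ?_), ?_⟩
  · have h1 := neg_mem (mul_mem lam_mem hl)
    have e : -(S3L.lam * (S3L.lam * z)) = 3 * z := by linear_combination -z * lam_sq
    rwa [e] at h1
  · have h1 := mul_mem lam_mem h.2
    have e : S3L.lam * ((n : ℂ) * z) = (n : ℂ) * (S3L.lam * z) := by ring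
    rwa [e] at h1

theorem Tor.lam_pow {n : ℕ} (hn : n.Coprime 3) {z : ℂ} (h : Tor n z) (k : ℕ) :
    Tor n (S3L.lam ^ k * z) := by
  induction k with
  | zero => simpa using h
  | succ k ih =>
    have e : S3L.lam ^ (k + 1) * z = S3L.lam * (S3L.lam ^ k * z) := by ring
    rw [e]
    exact ih.lam hn

/-- Some power of `√-3` fixes a torsion point of order prime to `3`. -/
theorem exists_pow {n : ℕ} (hn : n.Coprime 3) {z : ℂ} (h : (n : ℂ) * z ∈ PP.lattice) :
    ∃ k : ℕ, 0 < k ∧ lam ^ k * z - z ∈ PP.lattice := by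
  rcases Nat.eq_zero_or_pos n with h0 | h0
  · subst h0
    norm_num at hn
  have hcop : IsUnit ((-3 : ℤ) : ZMod n) := by
    rw [Int.cast_neg, IsUnit.neg_iff]
    have h1 : IsUnit ((3 : ℕ) : ZMod n) := (ZMod.isUnit_iff_coprime 3 n).2 hn.symm
    exact_mod_cast h1
  obtain ⟨u, hu⟩ := hcop
  have hfin : NeZero n := ⟨h0.ne'⟩
  obtain ⟨j, hj0, hj⟩ : ∃ j : ℕ, 0 < j ∧ u ^ j = 1 :=
    ⟨orderOf u, orderOf_pos u, pow_orderOf_eq_one u⟩
  have h1 : (((-3 : ℤ) ^ j : ℤ) : ZMod n) = ((1 : ℤ) : ZMod n) := by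
    rw [Int.cast_pow, ← hu, ← Units.val_pow_eq_pow_val, hj]
    simp
  rw [ZMod.intCast_eq_intCast_iff_dvd_sub] at h1
  obtain ⟨t, ht⟩ := h1
  refine ⟨2 * j, by omega, ?_⟩
  have e : lam ^ (2 * j) * z - z = ((-t : ℤ) : ℂ) * ((n : ℂ) * z) := by
    rw [pow_mul, lam_sq]
    have e1 : (1 : ℂ) - (-3) ^ j = (n : ℂ) * (t : ℂ) := by exact_mod_cast ht
    push_cast
    linear_combination -z * e1
  rw [e]
  exact mul_int_mem h _

section Val

variable {A : ValuationSubring ℂ}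

theorem v_three_lt (hA : ((3 : ℕ) : ℂ)⁻¹ ∉ A) : A.valuation (3 : ℂ) < 1 := by
  by_contra h
  push Not at h
  apply hA
  rw [← A.valuation_le_one_iff, map_inv₀]
  refine inv_le_one_of_one_le₀ ?_
  exact_mod_cast h

theorem v_two (hA : ((3 : ℕ) : ℂ)⁻¹ ∉ A) : A.valuation (2 : ℂ) = 1 := by
  have := v_cop hA (n := 2) (by norm_num)
  exact_mod_cast this

theorem v_lam_sq : A.valuation lam ^ 2 = A.valuation (3 : ℂ) := by
  rw [← map_pow, lam_sq, Valuation.map_neg]

theorem lam_ne : lam ≠ 0 := by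
  intro h
  have := lam_sq
  rw [h] at this
  norm_num at this

theorem v_lam_pos : 0 < A.valuation lam := by
  rw [zero_lt_iff]
  exact (Valuation.ne_zero_iff _).2 lam_ne

theorem v_lam_lt (hA : ((3 : ℕ) : ℂ)⁻¹ ∉ A) : A.valuation lam < 1 := by
  by_contra h
  push Not at h
  have h1 := v_three_lt hA
  rw [← v_lam_sq] at h1
  exact absurd h1 (not_lt.2 (one_le_pow₀ h))

theorem v_r (hA : ((3 : ℕ) : ℂ)⁻¹ ∉ A) {r : ℂ} (hr : 4 * r ^ 3 = -1) : A.valuation r = 1 := by
  have h1 := congrArg A.valuation hr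
  rw [map_mul, v_four (v_two hA), one_mul, map_pow, Valuation.map_neg, map_one] at h1
  rcases lt_trichotomy (A.valuation r) 1 with h | h | h
  · exact absurd h1 (pow_lt_one₀ zero_le h (by norm_num)).ne
  · exact h
  · exact absurd h1 (one_lt_pow₀ h (by norm_num)).ne'

/-- The step: multiplication by `√-3` is expanding outside the disc `|X - r| ≤ |√-3|`. -/
theorem step (hA : ((3 : ℕ) : ℂ)⁻¹ ∉ A) {r : ℂ} (hr : 4 * r ^ 3 = -1) {x x' : ℂ}
    (h : 3 * x ^ 2 * x' = -(x ^ 3 + 1)) (hx : A.valuation lam < A.valuation (x - r)) :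
    A.valuation (x - r) < A.valuation (x' - r) := by
  have hr1 := v_r hA hr
  have ht1 := v_lam_lt hA
  have ht0 := v_lam_pos (A := A)
  have ht3 := v_lam_sq (A := A)
  obtain ⟨a, ha⟩ : ∃ a, a = A.valuation (x - r) := ⟨_, rfl⟩
  obtain ⟨t, ht⟩ : ∃ t, t = A.valuation lam := ⟨_, rfl⟩
  rw [← ht] at ht1 ht0 ht3 hx
  rw [← ha] at hx ⊢
  have ha0 : 0 < a := ht0.trans hx
  have h3r : A.valuation (3 * r) = t ^ 2 := by rw [map_mul, hr1, mul_one, ht3]
  have htt : t ^ 2 < a := by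
    refine lt_of_le_of_lt ?_ hx
    calc t ^ 2 = t * t := sq t
      _ ≤ t * 1 := mul_le_mul' le_rfl ht1.le
      _ = t := mul_one t
  have h2r : A.valuation (x + 2 * r) = a := by
    have e : x + 2 * r = (x - r) + 3 * r := by ring
    rw [e, Valuation.map_add_eq_of_lt_left, ← ha]
    rw [h3r, ← ha]
    exact htt
  have hkey : 3 * x ^ 2 * (x' - r) = -((x - r) * (x + 2 * r) ^ 2) := by
    linear_combination h - hr
  have hv := congrArg A.valuation hkey
  rw [map_mul, map_mul, map_pow, Valuation.map_neg, map_mul, map_pow, h2r, ← ha, ← ht3] at hv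
  have hx1 : A.valuation x ≤ max a 1 := by
    have e : x = (x - r) + r := by ring
    rw [e]
    refine (Valuation.map_add _ _ _).trans ?_
    rw [← ha, hr1]
  by_contra hc
  push Not at hc
  have h4 : a * a ^ 2 ≤ (t * max a 1) ^ 2 * a := by
    rw [← hv, mul_pow]
    exact mul_le_mul' (mul_le_mul' le_rfl (pow_le_pow_left₀ zero_le hx1 2)) hc
  have h5 : a ^ 2 ≤ (t * max a 1) ^ 2 := by
    rw [mul_comm] at h4
    exact le_of_mul_le_mul_right h4 ha0
  have h6 : t * max a 1 < a := by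
    rcases le_total a 1 with h7 | h7
    · rw [max_eq_right h7, mul_one]
      exact hx
    · rw [max_eq_left h7]
      calc t * a < 1 * a := mul_lt_mul_of_pos_right ht1 ha0
        _ = a := one_mul a
  exact absurd h5 (not_le.2 (pow_lt_pow_left₀ h6 zero_le two_ne_zero))

/-- The abscissa of a torsion point of order prime to `3` is `r` modulo `√-3`. -/
theorem X_mem (hA : ((3 : ℕ) : ℂ)⁻¹ ∉ A) {r : ℂ} (hr : 4 * r ^ 3 = -1) {n : ℕ}
    (hn : n.Coprime 3) {z : ℂ} (h : Tor n z) : A.valuation (X z - r) ≤ A.valuation lam := by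
  by_contra hc
  push Not at hc
  have hk : ∀ k : ℕ, A.valuation (X z - r) ≤ A.valuation (X (lam ^ k * z) - r) ∧
      (0 < k → A.valuation (X z - r) < A.valuation (X (lam ^ k * z) - r)) := by
    intro k
    induction k with
    | zero => simp
    | succ k ih =>
      have hT := h.lam_pow hn k
      have e : lam ^ (k + 1) * z = lam * (lam ^ k * z) := by ring
      have h1 := step hA hr (X_lam hT.1 (hT.lam hn).1) (lt_of_lt_of_le hc ih.1)
      rw [e]
      exact ⟨ih.1.trans h1.le, fun _ => lt_of_le_of_lt ih.1 h1⟩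
  obtain ⟨k, hk0, hkz⟩ := exists_pow hn h.2
  have h1 := (hk k).2 hk0
  have e : lam ^ k * z = z + (lam ^ k * z - z) := by ring
  rw [e, X_add hkz] at h1
  exact lt_irrefl _ h1

theorem sl_mem (hA : ((3 : ℕ) : ℂ)⁻¹ ∉ A) {r ρ : ℂ} (hr : 4 * r ^ 3 = -1) (hρ : ρ ^ 2 = lam)
    {n : ℕ} (hn : n.Coprime 3) {u v : ℂ} (hu : Tor n u) (hv : Tor n v) (huv : Tor n (u + v)) :
    A.valuation (sl u v / ρ) ≤ 1 := by
  have hρ0 : ρ ≠ 0 := by
    rintro rfl
    exact lam_ne (by rw [← hρ]; norm_num)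
  have h1 := sl_sq hu.1 hv.1 huv.1
  have h2 : A.valuation (sl u v) ^ 2 ≤ A.valuation lam := by
    rw [← map_pow, ← h1]
    have e : X u + X v + X (u + v) = (X u - r) + (X v - r) + (X (u + v) - r) + 3 * r := by ring
    rw [e]
    refine Valuation.map_add_le _ (Valuation.map_add_le _ (Valuation.map_add_le _
      (X_mem hA hr hn hu) (X_mem hA hr hn hv)) (X_mem hA hr hn huv)) ?_
    rw [map_mul, v_r hA hr, mul_one, ← v_lam_sq, sq]
    calc A.valuation lam * A.valuation lam ≤ A.valuation lam * 1 :=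
          mul_le_mul' le_rfl (v_lam_lt hA).le
      _ = A.valuation lam := mul_one _
  rw [← hρ, map_pow] at h2
  have h3 : A.valuation (sl u v) ≤ A.valuation ρ := le_of_pow_le_pow_left₀ two_ne_zero zero_le h2
  rw [map_div₀]
  exact div_le_one_of_le₀ h3 zero_le

/-- `E1 / (ρ Om)` is integral above `3` at the torsion points of order prime to `3`. -/
theorem E1_mem (hA : ((3 : ℕ) : ℂ)⁻¹ ∉ A) {r ρ : ℂ} (hr : 4 * r ^ 3 = -1) (hρ : ρ ^ 2 = lam)
    {m : ℕ} (hm : m.Coprime 3) {z : ℂ} (hmz : (m : ℂ) * z ∈ PP.lattice) :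
    E1 z / (ρ * Om) ∈ A := by
  have hρ0 : ρ ≠ 0 := by
    rintro rfl
    exact lam_ne (by rw [← hρ]; norm_num)
  have hO := Om_ne_zero
  by_cases hz : z ∈ PP.lattice
  · rw [E1_coe hz, zero_div]
    exact A.zero_mem
  obtain ⟨n, hn0, hn, hnz, hmin⟩ := exact_order hm (by norm_num) hmz
  have hn1 : n ≠ 1 := by
    rintro rfl
    rw [Nat.cast_one, one_mul] at hnz
    exact hz hnz
  obtain ⟨N, rfl⟩ : ∃ k, n = k + 2 := ⟨n - 2, by omega⟩
  have hT : ∀ k : ℕ, 0 < k → k < N + 2 → Tor (N + 2) ((k : ℂ) * z) := by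
    intro k hk hkn
    refine ⟨hmin k hk hkn, ?_⟩
    have := mul_int_mem hnz (k : ℤ)
    have e : ((k : ℤ) : ℂ) * (((N + 2 : ℕ) : ℂ) * z) = ((N + 2 : ℕ) : ℂ) * ((k : ℂ) * z) := by
      rw [Int.cast_natCast]
      ring
    rwa [e] at this
  have hTz : Tor (N + 2) z := by
    have := hT 1 one_pos (by omega)
    rwa [Nat.cast_one, one_mul] at this
  have key : ∀ k : ℕ, k + 1 < N + 2 →
      A.valuation (E1 (((k + 1 : ℕ) : ℂ) * z) / (ρ * Om) -
        ((k + 1 : ℕ) : ℂ) * (E1 z / (ρ * Om))) ≤ 1 := by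
    intro k
    induction k with
    | zero =>
      intro _
      rw [zero_add, Nat.cast_one, one_mul, one_mul, sub_self, map_zero]
      exact zero_le_one
    | succ k ih =>
      intro hk
      have ih1 := ih (by omega)
      have h4 : A.valuation (sl (((k + 1 : ℕ) : ℂ) * z) z / ρ) ≤ 1 := by
        refine sl_mem hA hr hρ hn (hT (k + 1) (by omega) (by omega)) hTz ?_
        rw [← mul_succ]
        exact hT (k + 1 + 1) (by omega) hk
      have e : E1 (((k + 1 + 1 : ℕ) : ℂ) * z) / (ρ * Om) -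
          ((k + 1 + 1 : ℕ) : ℂ) * (E1 z / (ρ * Om)) =
          sl (((k + 1 : ℕ) : ℂ) * z) z / ρ +
            (E1 (((k + 1 : ℕ) : ℂ) * z) / (ρ * Om) -
              ((k + 1 : ℕ) : ℂ) * (E1 z / (ρ * Om))) := by
        rw [sl, mul_succ (k + 1), mul_succ (k + 1)]
        push_cast
        field_simp
        ring
      rw [e]
      exact Valuation.map_add_le _ h4 ih1
  have h := key N (by omega)
  have e : ((N + 1 : ℕ) : ℂ) * z = -z + ((N + 2 : ℕ) : ℂ) * z := by
    push_cast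
    ring
  rw [e, E1_add hnz, E1_neg] at h
  have e2 : -E1 z / (ρ * Om) - ((N + 1 : ℕ) : ℂ) * (E1 z / (ρ * Om)) =
      -(((N + 2 : ℕ) : ℂ) * (E1 z / (ρ * Om))) := by
    push_cast
    ring
  rw [e2, Valuation.map_neg, map_mul, v_cop hA hn, one_mul] at h
  exact (A.valuation_le_one_iff _).1 h

end Val

/-! ## The base value -/

theorem zt_sub_two_ne : zt - 2 ≠ 0 := by
  intro h
  have h1 := zt_quad
  have h2 : zt = 2 := by linear_combination h
  rw [h2] at h1
  norm_num at h1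

/-- The torsion point `1 / (zt - 2)` of order `7`. -/
def z0 : ℂ := 1 / (zt - 2)

theorem z0_mul : (zt - 2) * z0 = 1 := by
  rw [z0]
  field_simp [zt_sub_two_ne]

theorem z0_eq : zt * z0 = 2 * z0 + 1 := by linear_combination z0_mul

theorem seven_z0 : 7 * z0 ∈ PP.lattice := by
  have e : 7 * z0 = ((-3 : ℤ) : ℂ) + ((-1 : ℤ) : ℂ) * zt := by
    have h := z0_mul
    push_cast
    linear_combination (-3 - zt) * h + z0 * zt_quad
  rw [e]
  exact mem_PP.2 ⟨-3, -1, rfl⟩

theorem z0_notMem : z0 ∉ PP.lattice := by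
  intro h
  obtain ⟨m, n, e⟩ := mem_PP.1 h
  have h1 := z0_mul
  rw [← e] at h1
  -- `(zt - 2)(m + n zt) = 1`, the norm is `7 * N = 1`
  have h2 : ((-2 * m - n - 1 : ℤ) : ℂ) + ((m - 3 * n : ℤ) : ℂ) * zt = 0 := by
    push_cast
    linear_combination h1 - n * zt_quad
  have him := congrArg Complex.im h2
  have hre := congrArg Complex.re h2
  simp at him hre
  have h3 : ((m : ℝ) - 3 * n) = 0 := by
    rcases him with h | h
    · exact h
    · exact absurd h zt_ne
  have h3' : m - 3 * n = 0 := by exact_mod_cast h3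
  rw [h3, zero_mul, add_zero] at hre
  have h5 : ((-2 * m - n - 1 : ℤ) : ℝ) = 0 := by
    push_cast
    linarith
  have h6 : -2 * m - n - 1 = 0 := by exact_mod_cast h5
  omega

theorem Tor_z0 : Tor 7 z0 := ⟨z0_notMem, by exact_mod_cast seven_z0⟩

theorem two_z0_notMem : 2 * z0 ∉ PP.lattice := by
  intro h
  apply z0_notMem
  have h1 := seven_z0
  have e : z0 = 7 * z0 - ((3 : ℤ) : ℂ) * (2 * z0) := by
    push_cast
    ring
  rw [e]
  exact sub_mem h1 (mul_int_mem h 3)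

theorem X_two_z0 : X (2 * z0) = zt * X z0 := by
  rw [← X_zt, z0_eq, X_add one_mem]

theorem E1_two_z0 : E1 (2 * z0) = zt ^ 2 * E1 z0 := by
  rw [← E1_zt, z0_eq, E1_add one_mem]

theorem X_z0_ne : X z0 ≠ 0 := by
  intro h
  have h1 := X_lam z0_notMem (Tor_z0.lam (by norm_num)).1
  rw [h] at h1
  norm_num at h1

theorem X_z0_cube : (3 + 2 * zt) * X z0 ^ 3 = zt := by
  have h := X_two_mul two_z0_notMem
  rw [X_two_z0] at h
  apply mul_left_cancel₀ X_z0_ne
  have h1 : (zt * (4 * X z0 ^ 3 + 1)) * X z0 = (X z0 ^ 3 - 2) * X z0 := by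
    linear_combination h
  have h2 := mul_right_cancel₀ X_z0_ne h1
  -- `(4 zt - 1) X^3 = -(2 + zt)`
  have h3 : (4 * zt - 1) * X z0 ^ 3 = -(2 + zt) := by linear_combination h2
  have h4 : (2 + zt) * ((3 + 2 * zt) * X z0 ^ 3) = (2 + zt) * zt := by
    linear_combination -zt * h3 + (6 * X z0 ^ 3) * zt_quad
  have h5 : (2 + zt : ℂ) ≠ 0 := by
    intro h6
    have h7 := zt_quad
    have h8 : zt = -2 := by linear_combination h6
    rw [h8] at h7
    norm_num at h7
  have h6 := mul_left_cancel₀ h5 h4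
  rw [h6]

theorem E1_z0_sq : (E1 z0 / Om) ^ 2 * (zt ^ 2 - 2) ^ 2 = -(zt * lam) * X z0 := by
  have h := sl_sq z0_notMem z0_notMem (by rw [← two_mul]; exact two_z0_notMem)
  rw [sl, ← two_mul, ← two_mul, X_two_z0, E1_two_z0] at h
  have e : (zt ^ 2 * E1 z0 - E1 z0 - E1 z0) / Om = E1 z0 / Om * (zt ^ 2 - 2) := by
    ring
  rw [e, mul_pow] at h
  rw [← h, lam]
  linear_combination 2 * X z0 * zt_quad

section Val2

variable {A : ValuationSubring ℂ}

theorem zt_mem_A : A.valuation zt = 1 := by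
  have h1 := congrArg A.valuation zt_cube
  rw [map_pow, map_one] at h1
  rcases lt_trichotomy (A.valuation zt) 1 with h | h | h
  · exact absurd h1 (pow_lt_one₀ zero_le h (by norm_num)).ne
  · exact h
  · exact absurd h1 (one_lt_pow₀ h (by norm_num)).ne'

theorem v_lin_le (a b : ℤ) : A.valuation ((a : ℂ) + b * zt) ≤ 1 := by
  refine Valuation.map_add_le _ (v_int_le a) ?_
  rw [map_mul, zt_mem_A, mul_one]
  exact v_int_le b

/-- An element of norm `7` is a unit above `3`. -/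
theorem v_seven (hA : ((3 : ℕ) : ℂ)⁻¹ ∉ A) {x y : ℂ} (hx : A.valuation x ≤ 1)
    (hy : A.valuation y ≤ 1) (h : x * y = 7) : A.valuation x = 1 := by
  have h7 : A.valuation (7 : ℂ) = 1 := by
    have := v_cop hA (n := 7) (by norm_num)
    exact_mod_cast this
  have h1 := congrArg A.valuation h
  rw [map_mul, h7] at h1
  refine le_antisymm hx ?_
  by_contra hc
  push Not at hc
  have := mul_lt_one_of_lt_of_le hc hy
  rw [h1] at this
  exact lt_irrefl _ this

theorem v_E1_z0 (hA : ((3 : ℕ) : ℂ)⁻¹ ∉ A) {ρ : ℂ} (hρ : ρ ^ 2 = lam) :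
    A.valuation (E1 z0 / (ρ * Om)) = 1 := by
  have hρ0 : ρ ≠ 0 := by
    rintro rfl
    exact lam_ne (by rw [← hρ]; norm_num)
  have hO := Om_ne_zero
  have h1 : A.valuation (3 + 2 * zt) = 1 := by
    refine v_seven hA (y := 1 - 2 * zt) ?_ ?_ ?_
    · have := v_lin_le (A := A) 3 2
      exact_mod_cast this
    · have := v_lin_le (A := A) 1 (-2)
      push_cast at this
      have e : (1 : ℂ) - 2 * zt = 1 + -2 * zt := by ring
      rw [e]
      exact this
    · linear_combination -4 * zt_quad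
  have h2 : A.valuation (zt ^ 2 - 2) = 1 := by
    refine v_seven hA (y := zt - 2) ?_ ?_ ?_
    · have e : zt ^ 2 - 2 = ((-3 : ℤ) : ℂ) + ((-1 : ℤ) : ℂ) * zt := by
        push_cast
        linear_combination zt_quad
      rw [e]
      exact v_lin_le _ _
    · have e : zt - 2 = ((-2 : ℤ) : ℂ) + ((1 : ℤ) : ℂ) * zt := by
        push_cast
        ring
      rw [e]
      exact v_lin_le _ _
    · linear_combination zt_cube - 2 * zt_quad
  have hX : A.valuation (X z0) = 1 := by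
    have h3 := congrArg A.valuation X_z0_cube
    rw [map_mul, h1, one_mul, map_pow, zt_mem_A] at h3
    rcases lt_trichotomy (A.valuation (X z0)) 1 with h | h | h
    · exact absurd h3 (pow_lt_one₀ zero_le h (by norm_num)).ne
    · exact h
    · exact absurd h3 (one_lt_pow₀ h (by norm_num)).ne'
  have h4 := E1_z0_sq
  rw [← hρ] at h4
  have h5 : (E1 z0 / (ρ * Om)) ^ 2 * (zt ^ 2 - 2) ^ 2 = -zt * X z0 := by
    have h6 : ρ ^ 2 * ((E1 z0 / (ρ * Om)) ^ 2 * (zt ^ 2 - 2) ^ 2) = ρ ^ 2 * (-zt * X z0) := by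
      have e : ρ ^ 2 * ((E1 z0 / (ρ * Om)) ^ 2 * (zt ^ 2 - 2) ^ 2) =
          (E1 z0 / Om) ^ 2 * (zt ^ 2 - 2) ^ 2 := by
        field_simp
      rw [e, h4]
      ring
    exact mul_left_cancel₀ (pow_ne_zero 2 hρ0) h6
  have h7 := congrArg A.valuation h5
  rw [map_mul, map_pow, map_pow, h2, one_pow, mul_one, map_mul, Valuation.map_neg, zt_mem_A, hX,
    mul_one] at h7
  rcases lt_trichotomy (A.valuation (E1 z0 / (ρ * Om))) 1 with h | h | h
  · exact absurd h7 (pow_lt_one₀ zero_le h (by norm_num)).ne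
  · exact h
  · exact absurd h7 (one_lt_pow₀ h (by norm_num)).ne'

end Val2

end

end Pool.Agent.Lib.MP_1a91b9_ntT3.S3L

namespace Pool.Agent.Lib.MP_1a91b9_ntT3

open Pool.Agent.Lib.MP_1a91b9_ntT

/-- Integrality of `E1` above `3` at the torsion points of order prime to `3`, and the base
value. -/
theorem s3l_main : ∃ κ : ℂ, κ ≠ 0 ∧ ∀ A : ValuationSubring ℂ, ((3 : ℕ) : ℂ)⁻¹ ∉ A →
    (∀ m : ℕ, m.Coprime 3 → ∀ z : ℂ, (∃ l : ℤ × ℤ, (m : ℂ) * z = lp l) → E1 z / κ ∈ A) ∧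
      A.valuation (E1 (1 / (zt - 2)) / κ) = 1 := by
  obtain ⟨ρ, hρ⟩ := IsAlgClosed.exists_pow_nat_eq (S3L.lam) (n := 2) (by norm_num)
  obtain ⟨r, hr⟩ := IsAlgClosed.exists_pow_nat_eq (-1 / 4 : ℂ) (n := 3) (by norm_num)
  have hr' : 4 * r ^ 3 = -1 := by
    rw [hr]
    norm_num
  have hρ0 : ρ ≠ 0 := by
    rintro rfl
    exact S3L.lam_ne (by rw [← hρ]; norm_num)
  refine ⟨ρ * Om, mul_ne_zero hρ0 Om_ne_zero, fun A hA => ⟨fun m hm z hz => ?_, ?_⟩⟩
  · refine S3L.E1_mem hA hr' hρ hm ?_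
    obtain ⟨l, hl⟩ := hz
    rw [hl]
    exact S3.lp_mem l
  · exact S3L.v_E1_z0 hA hρ

end Pool.Agent.Lib.MP_1a91b9_ntT3
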