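import Pool.Agent.Lib.MP_1a91b9_ntT3.S3.Lam

/-!
# The period `κ` of `s3l_main`, with its relation to `Om`
-/

set_option autoImplicit false

namespace Pool.Agent.Lib.MP_1a91b9_ntT3

open Pool.Agent.Lib.MP_1a91b9_ntT

/-- `s3l_main` with the relation `κ ^ 4 = - 3 Om ^ 4`. -/
theorem s3l_main2 : ∃ κ : ℂ, κ ^ 4 = -3 * Om ^ 4 ∧ κ ≠ 0 ∧
    ∀ A : ValuationSubring ℂ, ((3 : ℕ) : ℂ)⁻¹ ∉ A →
    (∀ m : ℕ, m.Coprime 3 → ∀ z : ℂ, (∃ l : ℤ × ℤ, (m : ℂ) * z = lp l) → E1 z / κ ∈ A) ∧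
      A.valuation (E1 (1 / (zt - 2)) / κ) = 1 := by
  obtain ⟨ρ, hρ⟩ := IsAlgClosed.exists_pow_nat_eq (S3L.lam) (n := 2) (by norm_num)
  obtain ⟨r, hr⟩ := IsAlgClosed.exists_pow_nat_eq (-1 / 4 : ℂ) (n := 3) (by norm_num)
  have hr' : 4 * r ^ 3 = -1 := by
    rw [hr]
    norm_num
  have hρ0 : ρ ≠ 0 := by
    rintro rfl
    exact S3L.lam_ne (by rw [← hρ]; norm_num)
  refine ⟨ρ * Om, ?_, mul_ne_zero hρ0 Om_ne_zero, fun A hA => ⟨fun m hm z hz => ?_, ?_⟩⟩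
  · have h1 : ρ ^ 4 = -3 := by
      have h2 := S3L.lam_sq
      rw [← hρ] at h2
      linear_combination h2
    rw [mul_pow, h1]
  · refine S3L.E1_mem hA hr' hρ hm ?_
    obtain ⟨l, hl⟩ := hz
    rw [hl]
    exact S3.lp_mem l
  · exact S3L.v_E1_z0 hA hρ

end Pool.Agent.Lib.MP_1a91b9_ntT3
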